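import Pool.Agent.Lib.PolB.Mdl
import Pool.Agent.Lib.BVM.Model

/-!
# The formulas expressing the definitions of `Mdl`
-/

set_option autoImplicit false

namespace Pool.Agent.PolB

open Pool.Agent.Lib.BVM

/-- `∀ x ∈ v i, φ` -/
abbrev bAll (i : ℕ) (φ : Fm) : Fm := .all (.imp (.mem 0 (i + 1)) φ)

/-- `∃ x ∈ v i, φ` -/
abbrev bEx (i : ℕ) (φ : Fm) : Fm := .ex (.and (.mem 0 (i + 1)) φ)

def fPair (p a b : ℕ) : Fm :=
  .all (.iff (.mem 0 (p + 1)) (.or (.all (.iff (.mem 0 1) (.eq 0 (a + 2))))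
    (.all (.iff (.mem 0 1) (.or (.eq 0 (a + 2)) (.eq 0 (b + 2)))))))

def fPin (f a b : ℕ) : Fm := .ex (.and (fPair 0 (a + 1) (b + 1)) (.mem 0 (f + 1)))

def fOrd (x : ℕ) : Fm :=
  .and (bAll x (bAll 0 (.mem 0 (x + 2))))
    (bAll x (bAll (x + 1) (.or (.mem 1 0) (.or (.eq 1 0) (.mem 0 1)))))

def fLim (x : ℕ) : Fm :=
  .and (fOrd x) (.and (.ex (.mem 0 (x + 1))) (bAll x (bEx (x + 1) (.mem 1 0))))

def fReg (x : ℕ) : Fm :=
  .and (fLim x) (bAll x (.all (.imp (bAll 1 (bEx (x + 3) (fPin 2 1 0)))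
    (.imp (bAll 1 (bAll (x + 3) (bAll (x + 4)
      (.imp (fPin 3 2 1) (.imp (fPin 3 2 0) (.eq 1 0))))))
    (bEx (x + 2) (bAll 2 (bAll (x + 4) (.imp (fPin 3 1 0) (.mem 0 2)))))))))

def fStr (x : ℕ) : Fm :=
  bAll x (.all (bEx (x + 2) (bEx (x + 3) (.and (.mem 1 0)
    (bAll 3 (.iff (fPin 3 2 0) (fPin 3 1 0)))))))

def fInac (x : ℕ) : Fm := .and (fReg x) (.and (bEx x (fLim 0)) (fStr x))

def fUnb (H x : ℕ) : Fm := .and (bAll H (.mem 0 (x + 1))) (bAll x (bEx (H + 1) (.mem 1 0)))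

def fArr (x : ℕ) : Fm :=
  .all (.ex (.and (fUnb 0 (x + 2)) (.or
    (bAll 0 (bAll 1 (.imp (.mem 1 0) (fPin 3 1 0))))
    (bAll 0 (bAll 1 (.imp (.mem 1 0) (.neg (fPin 3 1 0))))))))

def fPow (k l : ℕ) : Fm :=
  .and (.ex (bAll (l + 1) (bAll (l + 2) (.imp (.mem 1 0)
    (bEx (k + 3) (.neg (.iff (fPin 3 2 0) (fPin 3 1 0))))))))
    (.ex (.all (bEx (l + 2) (bAll (k + 3) (.iff (.mem 0 2) (fPin 3 1 0))))))

def fPol (l k : ℕ) : Fm :=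
  .all (.ex (.ex (.and (fUnb 1 (l + 3)) (.and (fUnb 0 (k + 3)) (.or
    (bAll 1 (bAll 1 (fPin 4 1 0)))
    (bAll 1 (bAll 1 (.neg (fPin 4 1 0)))))))))

variable {M : Type*} (E : M → M → Prop) (v : ℕ → M)

theorem sat_fPair (p a b : ℕ) : sat E (fPair p a b) v ↔ IsPair E (v p) (v a) (v b) := Iff.rfl

theorem sat_fPin (f a b : ℕ) : sat E (fPin f a b) v ↔ PairIn E (v f) (v a) (v b) := Iff.rfl

theorem sat_fOrd (x : ℕ) : sat E (fOrd x) v ↔ IsOrd E (v x) := Iff.rfl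

theorem sat_fLim (x : ℕ) : sat E (fLim x) v ↔ IsLim E (v x) := Iff.rfl

theorem sat_fReg (x : ℕ) : sat E (fReg x) v ↔ IsReg E (v x) := Iff.rfl

theorem sat_fStr (x : ℕ) : sat E (fStr x) v ↔ IsStr E (v x) := Iff.rfl

theorem sat_fInac (x : ℕ) : sat E (fInac x) v ↔ IsInac E (v x) := Iff.rfl

theorem sat_fUnb (H x : ℕ) : sat E (fUnb H x) v ↔ IsUnb E (v H) (v x) := Iff.rfl

theorem sat_fArr (x : ℕ) : sat E (fArr x) v ↔ IsArr E (v x) := Iff.rfl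

theorem sat_fPow (k l : ℕ) : sat E (fPow k l) v ↔ IsPow E (v k) (v l) := Iff.rfl

theorem sat_fPol (l k : ℕ) : sat E (fPol l k) v ↔ IsPol E (v l) (v k) := Iff.rfl

end Pool.Agent.PolB
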