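import Pool.Agent.Lib.PolB.Fml
import Pool.Agent.Lib.BVM.Check

/-!
# Prs: ordered pairs, relations and bounded quantifiers in the Boolean-valued universe
-/

set_option autoImplicit false
universe u

namespace Pool.Agent.PolB

open Pool.Agent.Lib.BVM Pool.Agent.Lib.BVM.BSet

variable {B : Type u} [CompleteBooleanAlgebra B]

/-- name of the ordered pair -/
def opair (a b : BSet B) : BSet B := upair (upair a a) (upair a b)

theorem himp_himp_top {a : B} : (a ⇨ a) = ⊤ := himp_self

theorem bEq_of_forall {x y : BSet B} {c : B}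
    (h : ∀ z, c ≤ (bMem z x ⇨ bMem z y) ⊓ (bMem z y ⇨ bMem z x)) : c ≤ bEq x y := by
  rw [bEq_eq_iInf]
  exact le_iInf h

theorem bval_fPair (p a b : ℕ) (v : ℕ → BSet B) :
    bval (fPair p a b) v = bEq (v p) (opair (v a) (v b)) := by
  have h1 : ∀ z : BSet B, bval (.all (.iff (.mem 0 1) (.eq 0 (a + 2)))) (scons z v) =
      bEq z (upair (v a) (v a)) := by
    intro z
    rw [bEq_eq_iInf]
    simp only [bval]
    refine iInf_congr fun w => ?_
    simp only [scons_zero, scons_succ]
    rw [bMem_upair, sup_idem]
  have h2 : ∀ z : BSet B, bval (.all (.iff (.mem 0 1) (.or (.eq 0 (a + 2)) (.eq 0 (b + 2)))))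
      (scons z v) = bEq z (upair (v a) (v b)) := by
    intro z
    rw [bEq_eq_iInf]
    simp only [bval]
    refine iInf_congr fun w => ?_
    simp only [scons_zero, scons_succ]
    rw [bMem_upair]
  unfold fPair
  rw [bval, bEq_eq_iInf]
  refine iInf_congr fun z => ?_
  have h3 : bval (.or (.all (.iff (.mem 0 1) (.eq 0 (a + 2))))
      (.all (.iff (.mem 0 1) (.or (.eq 0 (a + 2)) (.eq 0 (b + 2)))))) (scons z v) =
      bMem z (opair (v a) (v b)) := by
    rw [bval, h1, h2, opair, bMem_upair]
  rw [bval, h3]
  simp only [bval, scons_zero, scons_succ]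

theorem bval_fPin (f a b : ℕ) (v : ℕ → BSet B) :
    bval (fPin f a b) v = bMem (opair (v a) (v b)) (v f) := by
  unfold fPin
  rw [bval]
  simp only [bval, bval_fPair, scons_zero, scons_succ]
  apply le_antisymm
  · exact iSup_le fun p => bMem_congr_left _ _ _
  · refine le_trans ?_ (le_iSup _ (opair (v a) (v b)))
    rw [bEq_refl, top_inf_eq]

theorem upair_congr (a b c d : BSet B) : bEq a c ⊓ bEq b d ≤ bEq (upair a b) (upair c d) := by
  refine bEq_of_forall fun z => ?_
  rw [bMem_upair, bMem_upair]
  refine le_inf ?_ ?_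
  · rw [le_himp_iff, inf_sup_left]
    refine sup_le_sup ?_ ?_
    · refine le_trans (le_inf inf_le_right (inf_le_left.trans inf_le_left)) (bEq_trans z a c)
    · refine le_trans (le_inf inf_le_right (inf_le_left.trans inf_le_right)) (bEq_trans z b d)
  · rw [le_himp_iff, inf_sup_left]
    refine sup_le_sup ?_ ?_
    · refine le_trans (le_inf inf_le_right (inf_le_left.trans inf_le_left)) ?_
      rw [bEq_symm a c]; exact bEq_trans z c a
    · refine le_trans (le_inf inf_le_right (inf_le_left.trans inf_le_right)) ?_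
      rw [bEq_symm b d]; exact bEq_trans z d b

theorem opair_congr (a b c d : BSet B) : bEq a c ⊓ bEq b d ≤ bEq (opair a b) (opair c d) := by
  refine le_trans (le_inf ?_ (upair_congr a b c d)) (upair_congr _ _ _ _)
  refine le_trans ?_ (upair_congr a a c c)
  exact le_inf inf_le_left inf_le_left

theorem bEq_upair_self (a c d : BSet B) : bEq (upair a a) (upair c d) ≤ bEq a c ⊓ bEq a d := by
  have h : ∀ z, bEq (upair a a) (upair c d) ⊓ (bEq z c ⊔ bEq z d) ≤ bEq z a := by
    intro z
    have := bMem_congr_right (upair c d) (upair a a) z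
    rw [bMem_upair, bMem_upair, sup_idem] at this
    rwa [bEq_symm (upair a a)]
  refine le_inf ?_ ?_
  · have := h c
    rw [bEq_refl, top_sup_eq, inf_top_eq, bEq_symm c a] at this
    exact this
  · have := h d
    rw [bEq_refl, sup_top_eq, inf_top_eq, bEq_symm d a] at this
    exact this

theorem bEq_opair (a b c d : BSet B) : bEq (opair a b) (opair c d) = bEq a c ⊓ bEq b d := by
  refine le_antisymm ?_ (opair_congr a b c d)
  -- first coordinates
  have h1 : bEq (opair a b) (opair c d) ≤ bEq a c := by
    have h := bMem_congr_right (opair a b) (opair c d) (upair a a)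
    have e : bMem (upair a a) (opair a b) = ⊤ := by
      rw [opair, bMem_upair, bEq_refl, top_sup_eq]
    rw [e, inf_top_eq, opair, opair, bMem_upair] at h
    rw [opair, opair]
    refine h.trans (sup_le ?_ ?_)
    · exact (bEq_upair_self a c c).trans inf_le_left
    · exact (bEq_upair_self a c d).trans inf_le_left
  -- second coordinates
  have h2 : bEq (opair a b) (opair c d) ≤ bEq b c ⊔ bEq b d := by
    have h := bMem_congr_right (opair a b) (opair c d) (upair a b)
    have e : bMem (upair a b) (opair a b) = ⊤ := by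
      rw [opair, bMem_upair, bEq_refl, sup_top_eq]
    rw [e, inf_top_eq] at h
    rw [opair, opair] at h ⊢
    rw [bMem_upair] at h
    refine h.trans (sup_le ?_ ?_)
    · have := bMem_congr_right (upair a b) (upair c c) b
      rw [bMem_upair, bMem_upair, bEq_refl, sup_top_eq, inf_top_eq, sup_idem] at this
      exact this.trans le_sup_left
    · have := bMem_congr_right (upair a b) (upair c d) b
      rwa [bMem_upair, bMem_upair, bEq_refl, sup_top_eq, inf_top_eq] at this
  have h3 : bEq (opair a b) (opair c d) ≤ bEq d a ⊔ bEq d b := by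
    have h := bMem_congr_right (opair c d) (opair a b) (upair c d)
    have e : bMem (upair c d) (opair c d) = ⊤ := by
      rw [opair, bMem_upair, bEq_refl, sup_top_eq]
    rw [e, inf_top_eq, bEq_symm] at h
    rw [opair, opair] at h ⊢
    rw [bMem_upair] at h
    refine h.trans (sup_le ?_ ?_)
    · have := bMem_congr_right (upair c d) (upair a a) d
      rw [bMem_upair, bMem_upair, bEq_refl, sup_top_eq, inf_top_eq, sup_idem] at this
      exact this.trans le_sup_left
    · have := bMem_congr_right (upair c d) (upair a b) d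
      rwa [bMem_upair, bMem_upair, bEq_refl, sup_top_eq, inf_top_eq] at this
  refine le_inf h1 ?_
  -- b = c and (d = a or d = b), with a = c: b = c = a = d or b = d
  have h4 : bEq (opair a b) (opair c d) ≤ bEq a c ⊓ ((bEq b c ⊔ bEq b d) ⊓ (bEq d a ⊔ bEq d b)) :=
    le_inf h1 (le_inf h2 h3)
  refine h4.trans ?_
  rw [inf_sup_left (bEq b c ⊔ bEq b d), inf_sup_left (bEq a c)]
  refine sup_le ?_ ?_
  · rw [inf_sup_right, inf_sup_left]
    refine sup_le ?_ ?_
    · -- a = c, b = c, d = a
      calc bEq a c ⊓ (bEq b c ⊓ bEq d a)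
          ≤ bEq b c ⊓ bEq c d := by
            refine le_inf (inf_le_right.trans inf_le_left) ?_
            refine le_trans (le_inf (inf_le_right.trans inf_le_right) inf_le_left) ?_
            rw [bEq_symm c d]
            exact bEq_trans d a c
        _ ≤ bEq b d := bEq_trans b c d
    · exact inf_le_right.trans inf_le_left
  · rw [bEq_symm b d]
    exact inf_le_right.trans inf_le_right

section names
variable {I J : Type u} [LinearOrder I] [WellFoundedLT I] [LinearOrder J] [WellFoundedLT J]

open Classical in
theorem bEq_opair_ck (a a' : I) (b b' : J) :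
    bEq (opair (chk B a) (chk B b)) (opair (chk B a') (chk B b')) =
      if a = a' ∧ b = b' then ⊤ else ⊥ := by
  rw [bEq_opair, chk_eq, chk_eq]
  by_cases h1 : a = a' <;> by_cases h2 : b = b' <;> simp [h1, h2]

/-- name of a relation between `I` and `J` -/
noncomputable def relN (c : I × J → B) : BSet B :=
  mk (I × J) (fun z => opair (chk B z.1) (chk B z.2)) c

theorem bMem_relN (c : I × J → B) (a : I) (b : J) :
    bMem (opair (chk B a) (chk B b)) (relN c) = c (a, b) := by
  classical
  rw [relN, bMem_mk]
  apply le_antisymm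
  · refine iSup_le fun z => ?_
    rw [bEq_opair_ck]
    split_ifs with h
    · obtain ⟨h1, h2⟩ := h
      have : z = (a, b) := by rw [h1, h2]
      rw [this]
      exact inf_le_left
    · simp
  · refine le_trans ?_ (le_iSup _ (a, b))
    rw [bEq_refl, inf_top_eq]

/-- name of a subset of `I` -/
noncomputable def subN (A : I → B) : BSet B := mk I (fun i => chk B i) A

theorem bMem_subN_ck (A : I → B) (a : I) : bMem (chk B a) (subN A) = A a := by
  classical
  rw [subN, bMem_mk]
  apply le_antisymm
  · refine iSup_le fun z => ?_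
    rw [chk_eq]
    split_ifs with h
    · rw [h]; exact inf_le_left
    · simp
  · refine le_trans ?_ (le_iSup _ a)
    rw [bEq_refl, inf_top_eq]

theorem iInf_subN {φ : BSet B → B} (h : Ext1 φ) (A : I → B) :
    (⨅ z, (bMem z (subN A) ⇨ φ z)) = ⨅ a : I, (A a ⇨ φ (chk B a)) := by
  rw [iInf_mem_himp h]
  rfl

theorem iSup_subN {φ : BSet B → B} (h : Ext1 φ) (A : I → B) :
    (⨆ z, bMem z (subN A) ⊓ φ z) = ⨆ a : I, A a ⊓ φ (chk B a) := by
  rw [iSup_mem_inf h]
  rfl

/-! ### bounded quantifiers -/

theorem bAll_all {i : ℕ} {v : ℕ → BSet B} (h : v i = chkAll B I) (φ : Fm) :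
    bval (bAll i φ) v = ⨅ a : I, bval φ (scons (chk B a) v) := by
  have := iInf_chkAll (I := I) (ext1_bval φ v)
  simp only [bval, scons_zero, scons_succ, h]
  exact this

theorem bEx_all {i : ℕ} {v : ℕ → BSet B} (h : v i = chkAll B I) (φ : Fm) :
    bval (bEx i φ) v = ⨆ a : I, bval φ (scons (chk B a) v) := by
  have := iSup_chkAll (I := I) (ext1_bval φ v)
  simp only [bval, scons_zero, scons_succ, h]
  exact this

theorem bAll_chk {i : ℕ} {v : ℕ → BSet B} {t : I} (h : v i = chk B t) (φ : Fm) :
    bval (bAll i φ) v = ⨅ a : {a : I // a < t}, bval φ (scons (chk B a.1) v) := by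
  have := iInf_chk (I := I) (ext1_bval φ v) t
  simp only [bval, scons_zero, scons_succ, h]
  exact this

theorem bEx_chk {i : ℕ} {v : ℕ → BSet B} {t : I} (h : v i = chk B t) (φ : Fm) :
    bval (bEx i φ) v = ⨆ a : {a : I // a < t}, bval φ (scons (chk B a.1) v) := by
  have := iSup_chk (I := I) (ext1_bval φ v) t
  simp only [bval, scons_zero, scons_succ, h]
  exact this

theorem bAll_subN {i : ℕ} {v : ℕ → BSet B} {A : I → B} (h : v i = subN A) (φ : Fm) :
    bval (bAll i φ) v = ⨅ a : I, (A a ⇨ bval φ (scons (chk B a) v)) := by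
  have := iInf_subN (I := I) (ext1_bval φ v) A
  simp only [bval, scons_zero, scons_succ, h]
  exact this

theorem bEx_subN {i : ℕ} {v : ℕ → BSet B} {A : I → B} (h : v i = subN A) (φ : Fm) :
    bval (bEx i φ) v = ⨆ a : I, A a ⊓ bval φ (scons (chk B a) v) := by
  have := iSup_subN (I := I) (ext1_bval φ v) A
  simp only [bval, scons_zero, scons_succ, h]
  exact this

/-- a subset of `chkAll` is the name `subN` of its Boolean values -/
theorem bEq_subN (H : BSet B) :
    (⨅ z, (bMem z H ⇨ bMem z (chkAll B I))) ≤ bEq H (subN (I := I) (fun a => bMem (chk B a) H)) := by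
  refine bEq_of_forall fun z => ?_
  refine le_inf ?_ ?_
  · rw [le_himp_iff]
    calc (⨅ z, (bMem z H ⇨ bMem z (chkAll B I))) ⊓ bMem z H
        ≤ bMem z H ⊓ ⨆ i : I, bEq z (chk B i) := by
          rw [← bMem_chkAll]
          exact le_inf inf_le_right (le_trans (inf_le_inf_right _ (iInf_le _ z)) himp_inf_le)
      _ ≤ bMem z (subN (I := I) (fun a => bMem (chk B a) H)) := by
          rw [inf_iSup_eq, subN, bMem_mk]
          refine iSup_mono fun i => le_inf ?_ inf_le_right
          rw [inf_comm]
          exact bMem_congr_left _ _ _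
  · rw [le_himp_iff]
    refine inf_le_right.trans ?_
    rw [subN, bMem_mk]
    refine iSup_le fun i => ?_
    rw [inf_comm, bEq_symm]
    exact bMem_congr_left _ _ _

end names

end Pool.Agent.PolB
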