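import Pool.Agent.Lib.PolB.Prs

/-!
# Lio: `chkAll` and `chk` of limits are limit ordinals

PROOF. Unfold `fLim`, `fOrd` (`bval` of `.and`, then `bAll_all`, `bEx_all`, `bAll_chk`, `bEx_chk`, with
`scons_zero`, `scons_succ`): the values of the atomic formulas are given by `chk_mem`, `chk_eq`
(`⊤` or `⊥`). First clause of `fOrd` for `v x = chkAll`: `⨅ a, ⨅ b : {b // b < a}, bMem (chk b) chkAll = ⊤`
(`chk_mem_chkAll`). Second clause: `⨅ a, ⨅ b, (a ∈ b) ⊔ ((a = b) ⊔ (b ∈ a)) = ⊤` by trichotomy. Limit clauses: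
`hn`, `hm`. In the inner bounded quantifiers the bound is the variable `x + 1` of `scons _ v`, equal to `v x`.
-/

set_option autoImplicit false
universe u

namespace Pool.Agent.PolB

open Pool.Agent.Lib.BVM Pool.Agent.Lib.BVM.BSet

variable {B : Type u} [CompleteBooleanAlgebra B] {I : Type u} [LinearOrder I] [WellFoundedLT I]

private theorem tri_top (a b : I) (w : ℕ → BSet B) (h1 : w 1 = chk B a) (h0 : w 0 = chk B b) :
    bval (.or (.mem 1 0) (.or (.eq 1 0) (.mem 0 1))) w = (⊤ : B) := by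
  simp only [bval, h1, h0]
  rcases lt_trichotomy a b with h | h | h
  · rw [chk_mem_of_lt h, top_sup_eq]
  · subst h
    rw [bEq_refl, top_sup_eq, sup_top_eq]
  · rw [chk_mem_of_lt h, sup_top_eq, sup_top_eq]

private theorem iSup_top_of {ι : Sort*} {f : ι → B} (i : ι) (h : f i = ⊤) : (⨆ i, f i) = ⊤ :=
  top_le_iff.1 (h ▸ le_iSup f i)

theorem bval_lim_all {v : ℕ → BSet B} {x : ℕ} (h : v x = chkAll B I) (hn : Nonempty I)
    (hm : ∀ a : I, ∃ b, a < b) : bval (fLim x) v = ⊤ := by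
  have e1 : bval (bAll x (bAll 0 (.mem 0 (x + 2)))) v = ⊤ := by
    rw [bAll_all h, iInf_eq_top]
    intro a
    rw [bAll_chk (t := a) (scons_zero _ _), iInf_eq_top]
    rintro ⟨b, hb⟩
    simp only [bval, scons_zero, scons_succ, h]
    exact chk_mem_chkAll b
  have e2 : bval (bAll x (bAll (x + 1) (.or (.mem 1 0) (.or (.eq 1 0) (.mem 0 1))))) v = ⊤ := by
    rw [bAll_all h, iInf_eq_top]
    intro a
    rw [bAll_all (I := I) (by rw [scons_succ, h]), iInf_eq_top]
    intro b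
    exact tri_top a b _ rfl rfl
  have e3 : bval (.ex (.mem 0 (x + 1))) v = ⊤ := by
    obtain ⟨a⟩ := hn
    refine iSup_top_of (chk B a) ?_
    simp only [bval, scons_zero, scons_succ, h]
    exact chk_mem_chkAll a
  have e4 : bval (bAll x (bEx (x + 1) (.mem 1 0))) v = ⊤ := by
    rw [bAll_all h, iInf_eq_top]
    intro a
    rw [bEx_all (I := I) (by rw [scons_succ, h])]
    obtain ⟨b, hb⟩ := hm a
    refine iSup_top_of b ?_
    simp only [bval, scons_zero, scons_succ]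
    exact chk_mem_of_lt hb
  show (bval (bAll x (bAll 0 (.mem 0 (x + 2)))) v ⊓
    bval (bAll x (bAll (x + 1) (.or (.mem 1 0) (.or (.eq 1 0) (.mem 0 1))))) v) ⊓
    (bval (.ex (.mem 0 (x + 1))) v ⊓ bval (bAll x (bEx (x + 1) (.mem 1 0))) v) = ⊤
  rw [e1, e2, e3, e4]
  simp only [inf_idem]

theorem bval_lim_chk {v : ℕ → BSet B} {x : ℕ} {t : I} (h : v x = chk B t) (hn : ∃ a, a < t)
    (hm : ∀ a < t, ∃ b, a < b ∧ b < t) : bval (fLim x) v = ⊤ := by
  have e1 : bval (bAll x (bAll 0 (.mem 0 (x + 2)))) v = ⊤ := by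
    rw [bAll_chk h, iInf_eq_top]
    rintro ⟨a, ha⟩
    rw [bAll_chk (t := a) (scons_zero _ _), iInf_eq_top]
    rintro ⟨b, hb⟩
    simp only [bval, scons_zero, scons_succ, h]
    exact chk_mem_of_lt (hb.trans ha)
  have e2 : bval (bAll x (bAll (x + 1) (.or (.mem 1 0) (.or (.eq 1 0) (.mem 0 1))))) v = ⊤ := by
    rw [bAll_chk h, iInf_eq_top]
    rintro ⟨a, ha⟩
    rw [bAll_chk (t := t) (by rw [scons_succ, h]), iInf_eq_top]
    rintro ⟨b, hb⟩
    exact tri_top a b _ rfl rfl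
  have e3 : bval (.ex (.mem 0 (x + 1))) v = ⊤ := by
    obtain ⟨a, ha⟩ := hn
    refine iSup_top_of (chk B a) ?_
    simp only [bval, scons_zero, scons_succ, h]
    exact chk_mem_of_lt ha
  have e4 : bval (bAll x (bEx (x + 1) (.mem 1 0))) v = ⊤ := by
    rw [bAll_chk h, iInf_eq_top]
    rintro ⟨a, ha⟩
    rw [bEx_chk (t := t) (by rw [scons_succ, h])]
    obtain ⟨b, hb, hbt⟩ := hm a ha
    refine iSup_top_of ⟨b, hbt⟩ ?_
    simp only [bval, scons_zero, scons_succ]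
    exact chk_mem_of_lt hb
  show (bval (bAll x (bAll 0 (.mem 0 (x + 2)))) v ⊓
    bval (bAll x (bAll (x + 1) (.or (.mem 1 0) (.or (.eq 1 0) (.mem 0 1))))) v) ⊓
    (bval (.ex (.mem 0 (x + 1))) v ⊓ bval (bAll x (bEx (x + 1) (.mem 1 0))) v) = ⊤
  rw [e1, e2, e3, e4]
  simp only [inf_idem]

end Pool.Agent.PolB
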