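import Pool.Agent.Lib.PolB.Fml
import Pool.Agent.Lib.BVM.Check
import Pool.Agent.Lib.PolF.Frc
import Pool.Agent.Lib.BVM.RO

/-!
# Rob: the regular open algebra of a preorder
-/

set_option autoImplicit false
universe u

namespace Pool.Agent.PolB

open Pool.Agent.Lib.BVM Pool.Agent.PolF TopologicalSpace

/-- the conditions, as a topological space: the open sets are the sets closed under stronger
conditions -/
structure Fsp {P : Type u} (le : P → P → Prop) : Type u where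
  c : P

instance {P : Type u} (le : P → P → Prop) : TopologicalSpace (Fsp le) where
  IsOpen s := ∀ p ∈ s, ∀ q : Fsp le, le q.c p.c → q ∈ s
  isOpen_univ := fun _ _ _ _ => trivial
  isOpen_inter := fun _ _ hs ht p hp q hq => ⟨hs p hp.1 q hq, ht p hp.2 q hq⟩
  isOpen_sUnion := fun _ h p hp q hq => by
    obtain ⟨t, ht, hpt⟩ := hp
    exact ⟨t, ht, h t ht p hpt q hq⟩

variable {P : Type u} {le : P → P → Prop}

/-- `p` belongs to the regular open set `b` -/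
def Ap (p : P) (b : RO (Fsp le)) : Prop := At (⟨p⟩ : Fsp le) b

theorem isOpen_Fsp {s : Set (Fsp le)} :
    IsOpen s ↔ ∀ p ∈ s, ∀ q : Fsp le, le q.c p.c → q ∈ s := Iff.rfl

theorem Ap_down {p q : P} {b : RO (Fsp le)} (h : Ap p b) (hq : le q p) : Ap q b :=
  isOpen_Fsp.1 (isOpen_at b) ⟨p⟩ h ⟨q⟩ hq

theorem le_iff_Ap {a b : RO (Fsp le)} : a ≤ b ↔ ∀ p : P, Ap p a → Ap p b :=
  ⟨fun h p hp => h hp, fun h p hp => h p.c hp⟩

theorem Ap_top (p : P) : Ap p (⊤ : RO (Fsp le)) := trivial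

theorem Ap_bot (p : P) : ¬ Ap p (⊥ : RO (Fsp le)) := fun h => h

theorem top_iff_Ap {b : RO (Fsp le)} : b = ⊤ ↔ ∀ p : P, Ap p b :=
  ⟨fun h p => by rw [h]; exact Ap_top p, fun h => top_le_iff.1 (le_iff_Ap.2 fun p _ => h p)⟩

theorem Ap_inf (p : P) (a b : RO (Fsp le)) : Ap p (a ⊓ b) ↔ Ap p a ∧ Ap p b := Iff.rfl

theorem mem_compl_Fsp (hr : ∀ p, le p p) (ht : ∀ p q r, le p q → le q r → le p r)
    (p : P) (V : Opens (Fsp le)) :
    (⟨p⟩ : Fsp le) ∈ Vᶜ ↔ ∀ q : P, le q p → (⟨q⟩ : Fsp le) ∉ V := by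
  rw [mem_compl_opens]
  constructor
  · intro h q hq hV
    apply h
    rw [mem_closure_iff]
    intro o ho hp
    exact ⟨⟨q⟩, isOpen_Fsp.1 ho ⟨p⟩ hp ⟨q⟩ hq, hV⟩
  · intro h hc
    rw [mem_closure_iff] at hc
    obtain ⟨q, hq, hV⟩ := hc {q : Fsp le | le q.c p}
      (isOpen_Fsp.2 fun a ha b hb => ht b.c a.c p hb ha) (hr p)
    exact h q.c hq hV

theorem Ap_compl (hr : ∀ p, le p p) (ht : ∀ p q r, le p q → le q r → le p r)
    (p : P) (b : RO (Fsp le)) : Ap p bᶜ ↔ ∀ q : P, le q p → ¬ Ap q b :=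
  mem_compl_Fsp hr ht p b.op

theorem Ap_iSup (hr : ∀ p, le p p) (ht : ∀ p q r, le p q → le q r → le p r) {ι : Sort*}
    (p : P) (b : ι → RO (Fsp le)) :
    Ap p (⨆ i, b i) ↔ ∀ q : P, le q p → ∃ r : P, le r q ∧ ∃ i, Ap r (b i) := by
  unfold Ap At
  rw [op_iSup, mem_compl_Fsp hr ht]
  refine forall_congr' fun q => forall_congr' fun _ => ?_
  rw [mem_compl_Fsp hr ht]
  push Not
  refine exists_congr fun r => and_congr_right fun _ => ?_
  rw [Opens.mem_iSup]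

theorem Ap_iInf (hr : ∀ p, le p p) (ht : ∀ p q r, le p q → le q r → le p r) {ι : Sort*}
    (p : P) (b : ι → RO (Fsp le)) : Ap p (⨅ i, b i) ↔ ∀ i, Ap p (b i) := by
  constructor
  · intro h i
    exact le_iff_Ap.1 (iInf_le b i) p h
  · intro h
    have e : (⨅ i, b i) = (⨆ i, (b i)ᶜ)ᶜ := by rw [compl_iSup]; simp
    rw [e, Ap_compl hr ht]
    intro q hq hs
    rw [Ap_iSup hr ht] at hs
    obtain ⟨r, hrq, i, hi⟩ := hs q (hr q)
    rw [Ap_compl hr ht] at hi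
    exact hi r (hr r) (Ap_down (h i) (ht _ _ _ hrq hq))

theorem Ap_sup (hr : ∀ p, le p p) (ht : ∀ p q r, le p q → le q r → le p r)
    (p : P) (a b : RO (Fsp le)) :
    Ap p (a ⊔ b) ↔ ∀ q : P, le q p → ∃ r : P, le r q ∧ (Ap r a ∨ Ap r b) := by
  rw [sup_eq_iSup, Ap_iSup hr ht]
  refine forall_congr' fun q => forall_congr' fun _ => exists_congr fun r =>
    and_congr_right fun _ => ?_
  constructor
  · rintro ⟨i, hi⟩
    cases i
    · exact Or.inr hi
    · exact Or.inl hi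
  · rintro (h | h)
    · exact ⟨true, h⟩
    · exact ⟨false, h⟩

theorem Ap_loc (hr : ∀ p, le p p) (ht : ∀ p q r, le p q → le q r → le p r)
    {p : P} {b : RO (Fsp le)} (h : ∀ q : P, le q p → ∃ r : P, le r q ∧ Ap r b) : Ap p b := by
  have e : b = bᶜᶜ := (compl_compl b).symm
  rw [e, Ap_compl hr ht]
  intro q hq hc
  obtain ⟨r, hrq, hb⟩ := h q hq
  exact (Ap_compl hr ht q b).1 hc r hrq hb

theorem Ap_himp (hr : ∀ p, le p p) (ht : ∀ p q r, le p q → le q r → le p r)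
    (p : P) (a b : RO (Fsp le)) : Ap p (a ⇨ b) ↔ ∀ q : P, le q p → Ap q a → Ap q b := by
  constructor
  · intro h q hq ha
    exact le_iff_Ap.1 (himp_inf_le : (a ⇨ b) ⊓ a ≤ b) q ⟨Ap_down h hq, ha⟩
  · intro h
    rw [himp_eq, Ap_sup hr ht]
    intro q hq
    by_cases hc : ∃ r : P, le r q ∧ Ap r a
    · obtain ⟨r, hrq, ha⟩ := hc
      exact ⟨r, hrq, Or.inl (h r (ht _ _ _ hrq hq) ha)⟩
    · refine ⟨q, hr q, Or.inr ((Ap_compl hr ht q a).2 fun r hrq ha => hc ⟨r, hrq, ha⟩)⟩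

/-- the regular open set of the conditions forcing `x ∈ A` -/
noncomputable def toB (le : P → P → Prop) {X : Type u} (A : X → Set P) (x : X) : RO (Fsp le) :=
  ⨆ a : {a : P // a ∈ A x}, ⨅ b : {b : RO (Fsp le) // Ap a.1 b}, b.1

theorem Ap_toB (hr : ∀ p, le p p) (ht : ∀ p q r, le p q → le q r → le p r) {X : Type u}
    (A : X → Set P) (x : X) (p : P) : Ap p (toB le A x) ↔ Mem le A x p := by
  unfold toB Mem
  rw [Ap_iSup hr ht]
  constructor
  · intro h q hq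
    obtain ⟨r, hrq, ⟨a, ha⟩, hi⟩ := h q hq
    rw [Ap_iInf hr ht] at hi
    -- the regular open set of the conditions compatible only with `a`
    let V : Opens (Fsp le) :=
      ⟨{s : Fsp le | le s.c a}, isOpen_Fsp.2 fun s hs t hts => ht t.c s.c a hts hs⟩
    let W : RO (Fsp le) := RO.of V
    have hW : Ap a W := by
      show (⟨a⟩ : Fsp le) ∈ Vᶜᶜ
      rw [mem_compl_Fsp hr ht]
      intro s hs hsc
      rw [mem_compl_Fsp hr ht] at hsc
      exact hsc s (hr s) hs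
    have h2 : Ap r W := hi ⟨W, hW⟩
    have h3 : (⟨r⟩ : Fsp le) ∈ Vᶜᶜ := h2
    rw [mem_compl_Fsp hr ht] at h3
    have h4 := h3 r (hr r)
    rw [mem_compl_Fsp hr ht] at h4
    push Not at h4
    obtain ⟨s, hs, hsa⟩ := h4
    exact ⟨s, ht _ _ _ hs hrq, a, ha, hsa⟩
  · intro h q hq
    obtain ⟨r, hrq, a, ha, hra⟩ := h q hq
    refine ⟨r, hrq, ⟨a, ha⟩, ?_⟩
    rw [Ap_iInf hr ht]
    rintro ⟨b, hb⟩
    exact Ap_down hb hra

/-- a family of regular open sets as a name -/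
def toS {X : Type u} (b : X → RO (Fsp le)) (x : X) : Set P := {p | Ap p (b x)}

theorem Mem_toS (hr : ∀ p, le p p) (ht : ∀ p q r, le p q → le q r → le p r) {X : Type u}
    (b : X → RO (Fsp le)) (x : X) (p : P) : Mem le (toS b) x p ↔ Ap p (b x) := by
  constructor
  · intro h
    refine Ap_loc hr ht fun q hq => ?_
    obtain ⟨r, hrq, a, ha, hra⟩ := h q hq
    exact ⟨r, hrq, Ap_down ha hra⟩
  · intro h q hq
    exact ⟨q, hr q, q, Ap_down h hq, hr q⟩

end Pool.Agent.PolB
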