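import Pool.Agent.Lib.PolB.Lio
import Pool.Agent.Lib.PolB.Rob

/-!
# Reg: regularity

PROOF. `fReg x = .and (fLim x) ψ`. `top_iff_Ap`: let `p : P`; show `Ap p (bval ψ v)`. `bAll_all` (bound `v x`),
`Ap_iInf`: let `t : I`; `.all`: `Ap_iInf`: let `f : BSet`; two `Ap_himp`: `q ≤ p`, `r ≤ q`. Put
`F : I × I → Set P := toS (fun z => bMem (opair (chk _ z.1) (chk _ z.2)) f)`; `Mem le F z p ↔ Ap p (..)`
(`Mem_toS`). The hypotheses, unfolded by `bAll_chk`, `bEx_all`, `bAll_all`, `bval_fPin`, `Ap_iInf`, `Ap_iSup`,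
`Ap_himp`, `chk_eq`, are those of `FReg` at `r` (the second: if `Mem F (i, x) s`, `Mem F (i, y) s`, `x ≠ y` then
`Ap s ⊥`). The conclusion of `FReg` gives the conclusion (`Ap_iSup`; `bMem (chk y) (chk b)` is `⊤` if
`y < b` (`chk_mem`), and if `b ≤ y` then `Ap s (bMem (opair i y) f)` is impossible).
-/

set_option autoImplicit false
universe u

namespace Pool.Agent.PolB

open Pool.Agent.Lib.BVM Pool.Agent.Lib.BVM.BSet Pool.Agent.PolF

variable {P : Type u} {le : P → P → Prop} {I : Type u} [LinearOrder I] [WellFoundedLT I]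

theorem bval_reg (hr : ∀ p, le p p) (ht : ∀ p q r, le p q → le q r → le p r)
    {v : ℕ → BSet (RO (Fsp le))} {x : ℕ} (h : v x = chkAll (RO (Fsp le)) I) (hn : Nonempty I)
    (hm : ∀ a : I, ∃ b, a < b) (hF : FReg le I) : bval (fReg x) v = ⊤ := by
  rw [top_iff_Ap]
  intro p
  unfold fReg
  rw [bval, bval_lim_all h hn hm]
  refine (Ap_inf p _ _).2 ⟨Ap_top p, ?_⟩
  rw [bAll_all h]
  refine (Ap_iInf hr ht _ _).2 fun t => ?_
  rw [bval]
  refine (Ap_iInf hr ht _ _).2 fun f => ?_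
  rw [bval]
  refine (Ap_himp hr ht _ _ _).2 fun q _ h1 => ?_
  rw [bval]
  refine (Ap_himp hr ht _ _ _).2 fun r hrq h2 => ?_
  -- the first hypothesis
  rw [bAll_chk (t := t) rfl] at h1
  have h1' : ∀ i < t, ∀ s, le s q → ∃ s', le s' s ∧ ∃ y : I,
      Ap s' (bMem (opair (chk _ i) (chk _ y)) f) := by
    intro i hi s hs
    have h3 := (Ap_iInf hr ht _ _).1 h1 ⟨i, hi⟩
    rw [bEx_all (I := I) (i := x + 3) h] at h3
    obtain ⟨s', hs', y, hy⟩ := (Ap_iSup hr ht _ _).1 h3 s hs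
    rw [bval_fPin] at hy
    exact ⟨s', hs', y, hy⟩
  -- the second hypothesis
  rw [bAll_chk (t := t) rfl] at h2
  have h2' : ∀ i < t, ∀ a b : I, a ≠ b → ∀ s, le s r → Ap s (bMem (opair (chk _ i) (chk _ a)) f) →
      ¬ Ap s (bMem (opair (chk _ i) (chk _ b)) f) := by
    intro i hi a b hab s hs ha hb
    have h3 := (Ap_iInf hr ht _ _).1 h2 ⟨i, hi⟩
    rw [bAll_all (I := I) (i := x + 3) h] at h3
    have h4 := (Ap_iInf hr ht _ _).1 h3 a
    rw [bAll_all (I := I) (i := x + 4) h] at h4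
    have h5 := (Ap_iInf hr ht _ _).1 h4 b
    rw [bval, bval_fPin] at h5
    have h6 := (Ap_himp hr ht _ _ _).1 h5 s hs ha
    rw [bval, bval_fPin] at h6
    have h7 := (Ap_himp hr ht _ _ _).1 h6 s (hr s) hb
    have h8 : Ap s (bEq (chk (RO (Fsp le)) a) (chk (RO (Fsp le)) b)) := h7
    rw [chk_eq_of_ne hab] at h8
    exact Ap_bot s h8
  -- apply the hypothesis on names
  have h3 := hF t (toS (fun z : I × I => bMem (opair (chk _ z.1) (chk _ z.2)) f)) r
    (fun i hi s hs => by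
      obtain ⟨s', hs', y, hy⟩ := h1' i hi s (ht _ _ _ hs hrq)
      exact ⟨s', hs', y, (Mem_toS hr ht _ _ _).2 hy⟩)
    (fun i hi a b hab s hs hm' =>
      h2' i hi a b hab s hs ((Mem_toS hr ht _ _ _).1 hm'.1) ((Mem_toS hr ht _ _ _).1 hm'.2))
  rw [bEx_all (I := I) (i := x + 2) h]
  refine (Ap_iSup hr ht _ _).2 fun s hs => ?_
  obtain ⟨s', hs', b, hb⟩ := h3 s hs
  refine ⟨s', hs', b, ?_⟩
  rw [bAll_chk (t := t) rfl]
  refine (Ap_iInf hr ht _ _).2 ?_
  rintro ⟨i, hi⟩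
  rw [bAll_all (I := I) (i := x + 4) h]
  refine (Ap_iInf hr ht _ _).2 fun y => ?_
  rw [bval, bval_fPin]
  refine (Ap_himp hr ht _ _ _).2 fun s'' hs'' hm' => ?_
  by_cases hyb : y < b
  · have e : bval (.mem 0 2) (scons (chk (RO (Fsp le)) y) (scons (chk (RO (Fsp le)) i)
        (scons (chk (RO (Fsp le)) b) (scons f (scons (chk (RO (Fsp le)) t) v))))) =
        (⊤ : RO (Fsp le)) := chk_mem_of_lt hyb
    rw [e]
    exact Ap_top _
  · exact absurd ((Mem_toS hr ht _ _ _).2 hm') (hb i hi y (not_lt.1 hyb) s'' hs'')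

end Pool.Agent.PolB
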