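import Pool.Agent.Lib.PolB.Unb

/-!
# Arr: not weakly compact

PROOF. `FNwc` gives `e`; suppose `Ap p (bval (fArr x) v)` (we show this never happens, so the value is `⊥`:
`le_bot_iff`, `le_iff_Ap`). Take for the colouring the name `c = relN (fun z => toB le e z)`
(`Ap_iInf`; `bMem_relN`): `Ap_iSup`: some `q ≤ p`, `H : BSet` with `Ap q (bval (fUnb ..) ..)` and `Ap q` of the
disjunction; `Ap_sup`: some `r ≤ q` with one of the two alternatives. `bval_unb_imp` at `r`: the name
`A = toS (fun a => bMem (chk a) H)` is unbounded. The first alternative: for all `a, b` (apply `Ap_iInf` to the names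
`chk a`, `chk b`), if `s ≤ r`, `Mem A a s`, `Mem A b s`, `a < b` then `Ap s (bMem (opair (chk a) (chk b)) c)`,
i.e. `Mem le e (a, b) s` (`Ap_toB`). Contradiction with `FNwc` at `r`; the second alternative likewise (`Ap_compl`).
-/

set_option autoImplicit false
universe u

namespace Pool.Agent.PolB

open Pool.Agent.Lib.BVM Pool.Agent.Lib.BVM.BSet Pool.Agent.PolF

variable {P : Type u} {le : P → P → Prop} {I : Type u} [LinearOrder I] [WellFoundedLT I]

private theorem arr_key (hr : ∀ p, le p p) (ht : ∀ p q r, le p q → le q r → le p r)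
    (φ : Fm) (w : ℕ → BSet (RO (Fsp le))) (r : P)
    (h : Ap r (bval (bAll 0 (bAll 1 (.imp (.mem 1 0) φ))) w)) (a b : I) (hab : a < b) (s : P)
    (hs : le s r) (ha : Ap s (bMem (chk (RO (Fsp le)) a) (w 0)))
    (hb : Ap s (bMem (chk (RO (Fsp le)) b) (w 0))) :
    Ap s (bval φ (scons (chk (RO (Fsp le)) b) (scons (chk (RO (Fsp le)) a) w))) := by
  have h1 : Ap s (bval (bAll 1 (.imp (.mem 1 0) φ)) (scons (chk (RO (Fsp le)) a) w)) :=
    (Ap_himp hr ht r _ _).1 ((Ap_iInf hr ht r _).1 h (chk (RO (Fsp le)) a)) s hs ha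
  have h2 : Ap s (bval (.imp (.mem 1 0) φ)
      (scons (chk (RO (Fsp le)) b) (scons (chk (RO (Fsp le)) a) w))) :=
    (Ap_himp hr ht s _ _).1 ((Ap_iInf hr ht s _).1 h1 (chk (RO (Fsp le)) b)) s (hr s) hb
  refine (Ap_himp hr ht s _ _).1 h2 s (hr s) ?_
  change Ap s (bMem (chk (RO (Fsp le)) a) (chk (RO (Fsp le)) b))
  rw [chk_mem_of_lt hab]
  exact Ap_top s

theorem bval_arr (hr : ∀ p, le p p) (ht : ∀ p q r, le p q → le q r → le p r)
    {v : ℕ → BSet (RO (Fsp le))} {x : ℕ} (h : v x = chkAll (RO (Fsp le)) I)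
    (hF : FNwc le I) : bval (fArr x) v = ⊥ := by
  obtain ⟨e, he⟩ := hF
  rw [← le_bot_iff, le_iff_Ap]
  intro p hp
  exfalso
  obtain ⟨q, hq, H, hH⟩ := (Ap_iSup hr ht p _).1
    ((Ap_iInf hr ht p _).1 hp (relN (fun z : I × I => toB le e z))) p (hr p)
  have hU : Ap q (bval (fUnb 0 (x + 2))
      (scons H (scons (relN (fun z : I × I => toB le e z)) v))) := hH.1
  obtain ⟨r, hrq, hor⟩ := (Ap_sup hr ht q _ _).1 hH.2 q (hr q)
  have hUr := bval_unb_imp hr ht (v := scons H (scons (relN (fun z : I × I => toB le e z)) v))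
    (H := 0) (x := x + 2) h r (Ap_down hU hrq)
  have hpin : ∀ a b : I, bval (fPin 3 1 0) (scons (chk (RO (Fsp le)) b)
      (scons (chk (RO (Fsp le)) a) (scons H (scons (relN (fun z : I × I => toB le e z)) v)))) =
      toB le e (a, b) := by
    intro a b
    rw [bval_fPin]
    exact bMem_relN _ a b
  rcases hor with hor | hor
  · refine (he _ r).1 ⟨hUr, fun a b hab s hs hab' => ?_⟩
    have h1 := arr_key hr ht _ _ r hor a b hab s hs ((Mem_toS hr ht _ a s).1 hab'.1)
      ((Mem_toS hr ht _ b s).1 hab'.2)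
    rw [hpin] at h1
    exact (Ap_toB hr ht e (a, b) s).1 h1
  · refine (he _ r).2 ⟨hUr, fun a b hab s hs hab' t hts hm => ?_⟩
    have h1 := arr_key hr ht _ _ r hor a b hab s hs ((Mem_toS hr ht _ a s).1 hab'.1)
      ((Mem_toS hr ht _ b s).1 hab'.2)
    have h2 := (Ap_compl hr ht s _).1 h1 t hts
    rw [hpin] at h2
    exact h2 ((Ap_toB hr ht e (a, b) t).2 hm)

end Pool.Agent.PolB
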