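import Pool.Agent.Lib.PolB.Unb

/-!
# Pol: the polarized relation

PROOF. `top_iff_Ap`; let `p`, `c : BSet` (`Ap_iInf`), `C = toS (fun z => bMem (opair (chk z.1) (chk z.2)) c)`
(a name `J × I → Set P`). `FPol` below every `q ≤ p`: `r ≤ q`, names `A`, `A'` (called `A`, `B` in `FPol`).
Witnesses for `Ap_iSup` (twice): `subN (toB le A)`, `subN (toB le A')`. `bval_unb_sub` for both. The alternatives:
`bAll_subN` twice, `Ap_iInf`, `Ap_himp`, `Ap_toB`, `bval_fPin`; in the second `Ap_compl`. (`Ap_sup`.)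
-/

set_option autoImplicit false
universe u

namespace Pool.Agent.PolB

open Pool.Agent.Lib.BVM Pool.Agent.Lib.BVM.BSet Pool.Agent.PolF

variable {P : Type u} {le : P → P → Prop} {I J : Type u} [LinearOrder I] [WellFoundedLT I]
  [LinearOrder J] [WellFoundedLT J]

theorem bval_pol (hr : ∀ p, le p p) (ht : ∀ p q r, le p q → le q r → le p r)
    {v : ℕ → BSet (RO (Fsp le))} {k l : ℕ} (hk : v k = chkAll (RO (Fsp le)) I)
    (hl : v l = chkAll (RO (Fsp le)) J) (hF : FPol le I J) : bval (fPol l k) v = ⊤ := by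
  rw [top_iff_Ap]
  intro p
  unfold fPol
  rw [bval]
  refine (Ap_iInf hr ht _ _).2 fun c => ?_
  rw [bval]
  refine (Ap_iSup hr ht _ _).2 fun q _ => ?_
  obtain ⟨r, hrq, A, A', hA, hA', hor⟩ :=
    hF (toS (fun z : J × I => bMem (opair (chk _ z.1) (chk _ z.2)) c)) q
  refine ⟨r, hrq, subN (fun a => toB le A a), ?_⟩
  rw [bval]
  refine le_iff_Ap.1 (le_iSup (fun z => bval _ (scons z _)) (subN (fun b => toB le A' b))) r ?_
  rw [bval]
  refine (Ap_inf r _ _).2 ⟨bval_unb_sub (H := 1) (x := l + 3) hr ht hl A rfl r hA, ?_⟩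
  rw [bval]
  refine (Ap_inf r _ _).2 ⟨bval_unb_sub (H := 0) (x := k + 3) hr ht hk A' rfl r hA', ?_⟩
  rw [bval]
  refine (Ap_sup hr ht r _ _).2 fun s hs => ⟨s, hr s, ?_⟩
  rcases hor with h1 | h1
  · left
    rw [bAll_subN (A := fun a => toB le A a) (i := 1) rfl]
    refine (Ap_iInf hr ht _ _).2 fun a => (Ap_himp hr ht _ _ _).2 fun s1 hs1 ha => ?_
    rw [bAll_subN (A := fun a => toB le A' a) (i := 1) rfl]
    refine (Ap_iInf hr ht _ _).2 fun b => (Ap_himp hr ht _ _ _).2 fun s2 hs2 hb => ?_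
    rw [bval_fPin]
    have ha' := Ap_down ha hs2
    exact (Mem_toS hr ht _ _ _).1 (h1 a b s2 (ht _ _ _ hs2 (ht _ _ _ hs1 hs))
      ⟨(Ap_toB hr ht _ _ _).1 ha', (Ap_toB hr ht _ _ _).1 hb⟩)
  · right
    rw [bAll_subN (A := fun a => toB le A a) (i := 1) rfl]
    refine (Ap_iInf hr ht _ _).2 fun a => (Ap_himp hr ht _ _ _).2 fun s1 hs1 ha => ?_
    rw [bAll_subN (A := fun a => toB le A' a) (i := 1) rfl]
    refine (Ap_iInf hr ht _ _).2 fun b => (Ap_himp hr ht _ _ _).2 fun s2 hs2 hb => ?_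
    rw [bval, bval_fPin]
    refine (Ap_compl hr ht _ _).2 fun s3 hs3 hc => ?_
    have ha' := Ap_down ha hs2
    exact h1 a b s2 (ht _ _ _ hs2 (ht _ _ _ hs1 hs))
      ⟨(Ap_toB hr ht _ _ _).1 ha', (Ap_toB hr ht _ _ _).1 hb⟩ s3 hs3
      ((Mem_toS hr ht _ _ _).2 hc)

end Pool.Agent.PolB
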