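import Pool.Agent.Lib.PolB.Prs
import Pool.Agent.Lib.PolB.Rob

/-!
# Pow: `2 ^ k = l`

PROOF. First part: for `x` from `FPow`, the witness is `g = relN (fun z => toB le x z)` (`le_iSup`); `bAll_all` twice,
`Ap_iInf`, `Ap_himp` with `bMem (chk a) (chk b)` (`chk_mem`: only `a < b` matters, so `a ≠ b`), `bEx_all`, `Ap_iSup`,
`Ap_compl` of the formula `iff`: `bMem_relN`, `Ap_toB`; `Neg (Iff' ..)` is the same as `Ap` of the complement of
`(φ ⇨ ψ) ⊓ (ψ ⇨ φ)`. Second part: `g = relN (fun z => toB le y z)`; for `s : BSet` put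
`S = toS (fun i => bMem (chk i) s)`; `FPow` gives densely `a : L` with `Iff' (Mem S i) (Mem y (a, i))` for all `i`.
-/

set_option autoImplicit false
universe u

namespace Pool.Agent.PolB

open Pool.Agent.Lib.BVM Pool.Agent.Lib.BVM.BSet Pool.Agent.PolF

variable {P : Type u} {le : P → P → Prop} {I J : Type u} [LinearOrder I] [WellFoundedLT I]
  [LinearOrder J] [WellFoundedLT J]

private theorem pow_Ap_iff (hr : ∀ p, le p p) (ht : ∀ p q r, le p q → le q r → le p r)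
    (X Y : RO (Fsp le)) (φ ψ : P → Prop) (hX : ∀ q, Ap q X ↔ φ q) (hY : ∀ q, Ap q Y ↔ ψ q) (p : P) :
    Ap p ((X ⇨ Y) ⊓ (Y ⇨ X)) ↔ Iff' le φ ψ p := by
  constructor
  · intro h q hq
    obtain ⟨h1, h2⟩ := (Ap_inf _ _ _).1 h
    rw [Ap_himp hr ht] at h1 h2
    rw [← hX, ← hY]
    exact ⟨h1 q hq, h2 q hq⟩
  · intro h
    refine (Ap_inf _ _ _).2 ⟨?_, ?_⟩
    · rw [Ap_himp hr ht]
      intro q hq hx
      exact (hY q).2 ((h q hq).1 ((hX q).1 hx))
    · rw [Ap_himp hr ht]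
      intro q hq hy
      exact (hX q).2 ((h q hq).2 ((hY q).1 hy))

private theorem pow_fst (hr : ∀ p, le p p) (ht : ∀ p q r, le p q → le q r → le p r)
    {v : ℕ → BSet (RO (Fsp le))} {k l : ℕ} (hk : v k = chkAll (RO (Fsp le)) I)
    (hl : v l = chkAll (RO (Fsp le)) J) (x : J × I → Set P)
    (hx : ∀ a b, a ≠ b → ∀ p,
      Exi le (fun i => Neg le (Iff' le (Mem le x (a, i)) (Mem le x (b, i)))) p) (p : P) :
    Ap p (bval (bAll (l + 1) (bAll (l + 2) (.imp (.mem 1 0)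
      (bEx (k + 3) (.neg (.iff (fPin 3 2 0) (fPin 3 1 0)))))))
      (scons (relN (fun z : J × I => toB le x z)) v)) := by
  have h1 : (scons (relN (fun z : J × I => toB le x z)) v) (l + 1) = chkAll (RO (Fsp le)) J := by
    rw [scons_succ, hl]
  rw [bAll_all h1, Ap_iInf hr ht]
  intro a
  have h2 : (scons (chk (RO (Fsp le)) a) (scons (relN (fun z : J × I => toB le x z)) v)) (l + 2) =
      chkAll (RO (Fsp le)) J := by
    rw [scons_succ, scons_succ, hl]
  rw [bAll_all h2, Ap_iInf hr ht]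
  intro b
  set w := scons (chk (RO (Fsp le)) b) (scons (chk (RO (Fsp le)) a)
    (scons (relN (fun z : J × I => toB le x z)) v)) with hw
  have h3 : bval (.imp (.mem 1 0) (bEx (k + 3) (.neg (.iff (fPin 3 2 0) (fPin 3 1 0))))) w =
      (bMem (chk (RO (Fsp le)) a) (chk (RO (Fsp le)) b) ⇨
        bval (bEx (k + 3) (.neg (.iff (fPin 3 2 0) (fPin 3 1 0)))) w) := rfl
  rw [h3, Ap_himp hr ht]
  intro q _ hab
  have hlt : a < b := by
    by_contra hc
    rw [chk_mem_of_not_lt hc] at hab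
    exact Ap_bot q hab
  have h4 : w (k + 3) = chkAll (RO (Fsp le)) I := by
    rw [hw, scons_succ, scons_succ, scons_succ, hk]
  rw [bEx_all h4, Ap_iSup hr ht]
  intro q' hq'
  obtain ⟨r, hr', i, hi⟩ := hx a b hlt.ne q' q' (hr q')
  refine ⟨r, hr', i, ?_⟩
  have h5 : bval (.neg (.iff (fPin 3 2 0) (fPin 3 1 0))) (scons (chk (RO (Fsp le)) i) w) =
      ((toB le x (a, i) ⇨ toB le x (b, i)) ⊓ (toB le x (b, i) ⇨ toB le x (a, i)))ᶜ := by
    rw [bval, bval, bval_fPin, bval_fPin, ← bMem_relN (B := RO (Fsp le)) (fun z : J × I => toB le x z) a i,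
      ← bMem_relN (B := RO (Fsp le)) (fun z : J × I => toB le x z) b i]
    rfl
  rw [h5, Ap_compl hr ht]
  intro s hs h6
  exact hi s hs ((pow_Ap_iff hr ht _ _ _ _ (Ap_toB hr ht x (a, i)) (Ap_toB hr ht x (b, i)) s).1 h6)

private theorem pow_snd (hr : ∀ p, le p p) (ht : ∀ p q r, le p q → le q r → le p r)
    {v : ℕ → BSet (RO (Fsp le))} {k l : ℕ} (hk : v k = chkAll (RO (Fsp le)) I)
    (hl : v l = chkAll (RO (Fsp le)) J) (y : J × I → Set P)
    (hy : ∀ (S : I → Set P) (p : P),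
      Exi le (fun a q => ∀ i, Iff' le (Mem le S i) (Mem le y (a, i)) q) p) (p : P) :
    Ap p (bval (.all (bEx (l + 2) (bAll (k + 3) (.iff (.mem 0 2) (fPin 3 1 0)))))
      (scons (relN (fun z : J × I => toB le y z)) v)) := by
  have h0 : bval (.all (bEx (l + 2) (bAll (k + 3) (.iff (.mem 0 2) (fPin 3 1 0)))))
      (scons (relN (fun z : J × I => toB le y z)) v) =
      ⨅ s, bval (bEx (l + 2) (bAll (k + 3) (.iff (.mem 0 2) (fPin 3 1 0))))
        (scons s (scons (relN (fun z : J × I => toB le y z)) v)) := rfl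
  rw [h0, Ap_iInf hr ht]
  intro s
  have h2 : (scons s (scons (relN (fun z : J × I => toB le y z)) v)) (l + 2) =
      chkAll (RO (Fsp le)) J := by
    rw [scons_succ, scons_succ, hl]
  rw [bEx_all h2, Ap_iSup hr ht]
  intro q hq
  obtain ⟨r, hr', a, ha⟩ := hy (toS (fun i : I => bMem (chk (RO (Fsp le)) i) s)) q q (hr q)
  refine ⟨r, hr', a, ?_⟩
  set w := scons (chk (RO (Fsp le)) a) (scons s (scons (relN (fun z : J × I => toB le y z)) v))
    with hw
  have h4 : w (k + 3) = chkAll (RO (Fsp le)) I := by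
    rw [hw, scons_succ, scons_succ, scons_succ, hk]
  rw [bAll_all h4, Ap_iInf hr ht]
  intro i
  have h5 : bval (.iff (.mem 0 2) (fPin 3 1 0)) (scons (chk (RO (Fsp le)) i) w) =
      ((bMem (chk (RO (Fsp le)) i) s ⇨ toB le y (a, i)) ⊓
        (toB le y (a, i) ⇨ bMem (chk (RO (Fsp le)) i) s)) := by
    rw [bval, bval_fPin, ← bMem_relN (B := RO (Fsp le)) (fun z : J × I => toB le y z) a i]
    rfl
  rw [h5]
  exact (pow_Ap_iff hr ht _ _ _ _
    (fun q => (Mem_toS hr ht (fun i : I => bMem (chk (RO (Fsp le)) i) s) i q).symm)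
    (Ap_toB hr ht y (a, i)) r).2 (ha i)

theorem bval_pow (hr : ∀ p, le p p) (ht : ∀ p q r, le p q → le q r → le p r)
    {v : ℕ → BSet (RO (Fsp le))} {k l : ℕ} (hk : v k = chkAll (RO (Fsp le)) I)
    (hl : v l = chkAll (RO (Fsp le)) J) (hF : FPow le I J) : bval (fPow k l) v = ⊤ := by
  obtain ⟨⟨x, hx⟩, y, hy⟩ := hF
  rw [top_iff_Ap]
  intro p
  have e : bval (fPow k l) v =
      (⨆ g, bval (bAll (l + 1) (bAll (l + 2) (.imp (.mem 1 0)
        (bEx (k + 3) (.neg (.iff (fPin 3 2 0) (fPin 3 1 0))))))) (scons g v)) ⊓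
      ⨆ g, bval (.all (bEx (l + 2) (bAll (k + 3) (.iff (.mem 0 2) (fPin 3 1 0))))) (scons g v) :=
    rfl
  rw [e]
  refine (Ap_inf _ _ _).2 ⟨?_, ?_⟩
  · exact le_iff_Ap.1 (le_iSup (fun g => bval (bAll (l + 1) (bAll (l + 2) (.imp (.mem 1 0)
        (bEx (k + 3) (.neg (.iff (fPin 3 2 0) (fPin 3 1 0))))))) (scons g v))
        (relN (fun z : J × I => toB le x z))) p (pow_fst hr ht hk hl x hx p)
  · exact le_iff_Ap.1 (le_iSup (fun g => bval (.all (bEx (l + 2) (bAll (k + 3)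
        (.iff (.mem 0 2) (fPin 3 1 0))))) (scons g v))
        (relN (fun z : J × I => toB le y z))) p (pow_snd hr ht hk hl y hy p)

end Pool.Agent.PolB
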