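import Pool.Agent.Lib.PolB.Lio
import Pool.Agent.Lib.PolB.Rob

/-!
# Str: strong limit

PROOF. As in `Reg`: `top_iff_Ap`, `bAll_all`, `Ap_iInf` (`t : I`), `.all` (`g : BSet`), then `bEx_all` twice, `Ap_iSup`
twice; `G = toS (fun z => bMem (opair (chk _ z.1) (chk _ z.2)) g)`; `FStr` gives below every `q` some `r` and
`a < b` with `Iff'` for all `i < t`; `bMem (chk a) (chk b) = ⊤`; `bAll_chk`; the formula `iff` has value
`(φ ⇨ ψ) ⊓ (ψ ⇨ φ)`, `Ap_inf`, `Ap_himp`, and `Iff'` is the same. (`Ap_iSup` asks for the witness densely: given the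
`r`, `a`, `b`, use them for both quantifiers, with `Ap_down`.)
-/

set_option autoImplicit false
universe u

namespace Pool.Agent.PolB

open Pool.Agent.Lib.BVM Pool.Agent.Lib.BVM.BSet Pool.Agent.PolF

variable {P : Type u} {le : P → P → Prop} {I : Type u} [LinearOrder I] [WellFoundedLT I]

theorem bval_str (hr : ∀ p, le p p) (ht : ∀ p q r, le p q → le q r → le p r)
    {v : ℕ → BSet (RO (Fsp le))} {x : ℕ} (h : v x = chkAll (RO (Fsp le)) I)
    (hF : FStr le I) : bval (fStr x) v = ⊤ := by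
  rw [top_iff_Ap]
  intro p
  unfold fStr
  rw [bAll_all h, Ap_iInf hr ht]
  intro t
  rw [bval, Ap_iInf hr ht]
  intro g
  have h2 : (scons g (scons (chk (RO (Fsp le)) t) v)) (x + 2) = chkAll (RO (Fsp le)) I := h
  rw [bEx_all h2, Ap_iSup hr ht]
  intro q hq
  obtain ⟨r, hrq, ⟨⟨a, b⟩, hab⟩, hi⟩ := hF t
    (toS (fun z : I × I => bMem (opair (chk (RO (Fsp le)) z.1) (chk (RO (Fsp le)) z.2)) g)) q q
    (hr q)
  refine ⟨r, hrq, a, ?_⟩
  have h3 : (scons (chk (RO (Fsp le)) a) (scons g (scons (chk (RO (Fsp le)) t) v))) (x + 3) =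
      chkAll (RO (Fsp le)) I := h
  rw [bEx_all h3, Ap_iSup hr ht]
  intro s hs
  refine ⟨s, hr s, b, ?_⟩
  refine (Ap_inf s _ _).2 ⟨?_, ?_⟩
  · show Ap s (bMem (chk (RO (Fsp le)) a) (chk (RO (Fsp le)) b))
    rw [chk_mem_of_lt hab]
    exact Ap_top s
  · have h4 : (scons (chk (RO (Fsp le)) b) (scons (chk (RO (Fsp le)) a)
        (scons g (scons (chk (RO (Fsp le)) t) v)))) 3 = chk (RO (Fsp le)) t := rfl
    rw [bAll_chk h4, Ap_iInf hr ht]
    rintro ⟨i, hit⟩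
    rw [bval, bval_fPin, bval_fPin]
    show Ap s ((bMem (opair (chk _ a) (chk _ i)) g ⇨ bMem (opair (chk _ b) (chk _ i)) g) ⊓
      (bMem (opair (chk _ b) (chk _ i)) g ⇨ bMem (opair (chk _ a) (chk _ i)) g))
    have hIff := hi i hit
    rw [Ap_inf, Ap_himp hr ht, Ap_himp hr ht]
    refine ⟨fun w hw hwa => ?_, fun w hw hwa => ?_⟩
    · have h5 := hIff w (ht _ _ _ hw hs)
      rw [Mem_toS hr ht, Mem_toS hr ht] at h5
      exact h5.1 hwa
    · have h5 := hIff w (ht _ _ _ hw hs)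
      rw [Mem_toS hr ht, Mem_toS hr ht] at h5
      exact h5.2 hwa

end Pool.Agent.PolB
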