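import Pool.Agent.Lib.PolB.Reg
import Pool.Agent.Lib.PolB.Str
import Pool.Agent.Lib.PolB.Arr
import Pool.Agent.Lib.PolB.Pow
import Pool.Agent.Lib.PolB.Pol
import Pool.Agent.Lib.BVM.ZFC3
import Pool.Agent.Lib.PolF.Main

/-!
# Fin: the model
-/

set_option autoImplicit false
universe u

namespace Pool.Agent.PolB

open Pool.Agent.Lib.BVM Pool.Agent.Lib.BVM.BSet Pool.Agent.PolF

theorem model_pol (κ : Cardinal.{u}) (hκ : κ.IsInaccessible) (h : Indestr κ) :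
    ∃ (M : Type (u + 1)) (E : M → M → Prop), IsZFC E ∧ ∃ k l : M,
      IsInac E k ∧ ¬ IsArr E k ∧ IsReg E l ∧ IsPow E k l ∧ IsPol E l k := by
  obtain ⟨lam, P, le, ⟨p0⟩, hr, ht, hRK, hSK, hN, hRL, hPow, hPol⟩ := main_pol κ hκ h
  have hK := InO_toType κ hκ
  -- no last element
  have hKm : ∀ a : κ.ord.ToType, ∃ b, a < b := by
    intro a
    obtain ⟨b, hb⟩ := hK.bdd {a} (by
      rw [Cardinal.mk_singleton]
      exact lt_of_lt_of_le Cardinal.one_lt_aleph0 hK.unc.le)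
    exact ⟨b, hb a rfl⟩
  have hKn : Nonempty κ.ord.ToType := by
    obtain ⟨b, -⟩ := hK.bdd ∅ (by
      simp only [Cardinal.mk_eq_zero]
      exact lt_of_le_of_lt zero_le hK.unc)
    exact ⟨b⟩
  -- the polarized relation gives unbounded subsets of `lam`
  have hLm : ∀ a : lam.ord.ToType, ∃ b, a < b := by
    obtain ⟨q, -, A, -, hA, -⟩ := hPol (fun _ => ∅) p0
    intro a
    obtain ⟨r, -, x, -⟩ := hA a q (hr q)
    exact ⟨x.1, x.2⟩
  have hLn : Nonempty lam.ord.ToType := by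
    obtain ⟨y, hy⟩ := hPow.2
    obtain ⟨r, -, a, -⟩ := hy (fun _ => ∅) p0 p0 (hr p0)
    exact ⟨a⟩
  let B := RO (Fsp le)
  have hB : (⊤ : B) ≠ ⊥ := by
    intro e
    have h1 : Ap p0 (⊤ : RO (Fsp le)) := Ap_top p0
    rw [show (⊤ : RO (Fsp le)) = ⊥ from e] at h1
    exact Ap_bot p0 h1
  obtain ⟨U, -⟩ := exists_ult hB
  let v : ℕ → BSet B := scons (chkAll B κ.ord.ToType) (fun _ => chkAll B lam.ord.ToType)
  have hv0 : v 0 = chkAll B κ.ord.ToType := rfl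
  have hv1 : v 1 = chkAll B lam.ord.ToType := rfl
  have tr : ∀ φ : Fm, bval φ v = ⊤ → sat U.E φ (fun i => U.cls (v i)) := fun φ hφ => by
    rw [U.los, hφ]; exact U.top'
  have trn : ∀ φ : Fm, bval φ v = ⊥ → ¬ sat U.E φ (fun i => U.cls (v i)) := fun φ hφ => by
    rw [U.los, hφ]; exact U.bot'
  refine ⟨U.Mod, U.E, U.isZFC, U.cls (v 0), U.cls (v 1), ⟨?_, ?_, ?_⟩, ?_, ?_, ?_, ?_⟩
  · exact tr (fReg 0) (bval_reg hr ht hv0 hKn hKm hRK)
  · -- the limit element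
    obtain ⟨k0⟩ := hKn
    obtain ⟨t, h1, h2, h3⟩ := hK.sup (fun n => Nat.rec k0 (fun _ y => (hKm y).choose) n)
      (fun n => (hKm _).choose_spec)
    refine ⟨U.cls (chk B t), ?_, ?_⟩
    · rw [U.E_cls]
      have : bMem (chk B t) (v 0) = ⊤ := by rw [hv0, chk_mem_chkAll]
      rw [this]; exact U.top'
    · have h4 : bval (fLim 0) (scons (chk B t) v) = ⊤ := bval_lim_chk (t := t) rfl h1.1 h1.2
      have h5 := (U.los (fLim 0) (scons (chk B t) v)).2 (by rw [h4]; exact U.top')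
      exact h5
  · exact tr (fStr 0) (bval_str hr ht hv0 hSK)
  · exact trn (fArr 0) (bval_arr hr ht hv0 hN)
  · exact tr (fReg 1) (bval_reg hr ht hv1 hLn hLm hRL)
  · exact tr (fPow 0 1) (bval_pow hr ht hv0 hv1 hPow)
  · exact tr (fPol 1 0) (bval_pol hr ht hv0 hv1 hPol)

end Pool.Agent.PolB
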