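import Mathlib

/-!
# The statement, for a structure `(M, E)`

`E x y` is read as `x ∈ y`. All definitions are the usual ones, written out in the language of set
theory.
-/

set_option autoImplicit false

namespace Pool.Agent.PolB

variable {M : Type*} (E : M → M → Prop)

/-- `p = (a, b)` (Kuratowski pair `{{a}, {a, b}}`) -/
def IsPair (p a b : M) : Prop :=
  ∀ z, E z p ↔ ((∀ w, E w z ↔ w = a) ∨ (∀ w, E w z ↔ (w = a ∨ w = b)))

/-- `(a, b) ∈ f` -/
def PairIn (f a b : M) : Prop := ∃ p, IsPair E p a b ∧ E p f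

/-- `x` is an ordinal: a transitive set, linearly ordered by `∈` -/
def IsOrd (x : M) : Prop :=
  (∀ y, E y x → ∀ z, E z y → E z x) ∧ ∀ y, E y x → ∀ z, E z x → (E y z ∨ (y = z ∨ E z y))

/-- `x` is a nonzero limit ordinal -/
def IsLim (x : M) : Prop :=
  IsOrd E x ∧ ((∃ y, E y x) ∧ ∀ y, E y x → ∃ z, E z x ∧ E y z)

/-- `x` is an infinite regular cardinal: a limit ordinal such that every function from an element of
`x` to `x` is bounded -/
def IsReg (x : M) : Prop :=
  IsLim E x ∧ ∀ t, E t x → ∀ f,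
    (∀ i, E i t → ∃ y, E y x ∧ PairIn E f i y) →
    (∀ i, E i t → ∀ y, E y x → ∀ z, E z x → PairIn E f i y → PairIn E f i z → y = z) →
    ∃ b, E b x ∧ ∀ i, E i t → ∀ y, E y x → PairIn E f i y → E y b

/-- for no `t ∈ x` is there an injection from `x` to the power set of `t` -/
def IsStr (x : M) : Prop :=
  ∀ t, E t x → ∀ g, ∃ a, E a x ∧ ∃ b, E b x ∧ (E a b ∧ ∀ i, E i t → (PairIn E g a i ↔ PairIn E g b i))

/-- `x` is an inaccessible cardinal: uncountable, regular, strong limit -/
def IsInac (x : M) : Prop := IsReg E x ∧ ((∃ w, E w x ∧ IsLim E w) ∧ IsStr E x)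

/-- `H` is an unbounded subset of `x` -/
def IsUnb (H x : M) : Prop := (∀ y, E y H → E y x) ∧ ∀ b, E b x → ∃ y, E y H ∧ E b y

/-- `x → (x)²₂`, for a regular cardinal `x`: every colouring of the pairs `a ∈ b` of elements of `x` has a
homogeneous set which is unbounded in `x` -/
def IsArr (x : M) : Prop :=
  ∀ c, ∃ H, IsUnb E H x ∧
    ((∀ a, E a H → ∀ b, E b H → E a b → PairIn E c a b) ∨
      (∀ a, E a H → ∀ b, E b H → E a b → ¬ PairIn E c a b))

/-- `2 ^ k = l`: there are an injection from `l` to the power set of `k` and a surjection from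
`l` onto it -/
def IsPow (k l : M) : Prop :=
  (∃ g, ∀ a, E a l → ∀ b, E b l → E a b → ∃ i, E i k ∧ ¬ (PairIn E g a i ↔ PairIn E g b i)) ∧
  ∃ g, ∀ s, ∃ a, E a l ∧ ∀ i, E i k → (E i s ↔ PairIn E g a i)

/-- the strong polarized relation `(l, k) → (l, k)` with two colours, for regular cardinals `l`, `k`:
for every colouring of `l × k` there are unbounded `A ⊆ l`, `B ⊆ k` with the colouring constant on
`A × B` -/
def IsPol (l k : M) : Prop :=
  ∀ c, ∃ A, ∃ B, IsUnb E A l ∧ (IsUnb E B k ∧
    ((∀ a, E a A → ∀ b, E b B → PairIn E c a b) ∨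
      (∀ a, E a A → ∀ b, E b B → ¬ PairIn E c a b)))

end Pool.Agent.PolB
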