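import Pool.Agent.Lib.PolB.Prs
import Pool.Agent.Lib.PolB.Rob

/-!
# Unb: unbounded subsets

PROOF. `bval_unb_imp`: let `A a = bMem (chk a) H`. `Ap p (bval (fUnb H x) v)` gives (first clause, `.all`, `.imp`)
`Ap p (⨅ z, (bMem z H ⇨ bMem z (chkAll ..)))`, which is `≤ bEq H (subN A)` (`bEq_subN`). Second clause: `bAll_all`:
for `b : I`, `Ap p (⨆ z, bMem z H ⊓ bMem (chk b) z)`; with the first clause
`bMem z H ≤ ⨆ a, bEq z (chk a)`, and `bEq z (chk a) ⊓ (bMem z H ⊓ bMem (chk b) z) ≤ bMem (chk a) H ⊓ bMem (chk b) (chk a)`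
(`bMem_congr_left`, `bMem_congr_right`), `chk_mem`. `Ap_iSup`, `Mem_toS`. `bval_unb_sub`: `bAll_subN`,
`bEx_subN`, `bMem_chkAll`/`chk_mem_chkAll`, `Ap_iSup`.
-/

set_option autoImplicit false
universe u

namespace Pool.Agent.PolB

open Pool.Agent.Lib.BVM Pool.Agent.Lib.BVM.BSet Pool.Agent.PolF

variable {P : Type u} {le : P → P → Prop} {I : Type u} [LinearOrder I] [WellFoundedLT I]

private theorem unb_aux {B : Type u} [CompleteBooleanAlgebra B] (H : BSet B) (b : I) :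
    bEq H (subN (I := I) (fun a => bMem (chk B a) H)) ⊓ (⨆ z, bMem z H ⊓ bMem (chk B b) z) ≤
      ⨆ a : I, bMem (chk B a) H ⊓ bMem (chk B b) (chk B a) := by
  have h8 := iSup_subN (I := I) (ext1_mem_right (chk B b)) (fun a : I => bMem (chk B a) H)
  beta_reduce at h8
  rw [← h8, inf_iSup_eq]
  refine iSup_mono fun z => ?_
  rw [← inf_assoc]
  exact inf_le_inf_right _ (bMem_congr_right _ _ _)

private theorem unb_mem_chk (b a : I) (X : RO (Fsp le)) (r : P)
    (h : Ap r (X ⊓ bMem (chk (RO (Fsp le)) b) (chk (RO (Fsp le)) a))) : b < a ∧ Ap r X := by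
  rw [Ap_inf] at h
  refine ⟨?_, h.1⟩
  by_contra hc
  have h2 := h.2
  rw [chk_mem_of_not_lt hc] at h2
  exact Ap_bot r h2

/-- an unbounded subset of `chkAll` in the extension gives an unbounded name -/
theorem bval_unb_imp (hr : ∀ p, le p p) (ht : ∀ p q r, le p q → le q r → le p r)
    {v : ℕ → BSet (RO (Fsp le))} {H x : ℕ} (h : v x = chkAll (RO (Fsp le)) I) (p : P)
    (hp : Ap p (bval (fUnb H x) v)) :
    PolF.Unb le (toS (fun a : I => bMem (chk (RO (Fsp le)) a) (v H))) p := by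
  have e : bval (fUnb H x) v = (⨅ z, (bMem z (v H) ⇨ bMem z (v x))) ⊓
      bval (bAll x (bEx (H + 1) (.mem 1 0))) v := by
    unfold fUnb
    simp only [bval, scons_zero, scons_succ]
  rw [e] at hp
  obtain ⟨h1, h2⟩ := (Ap_inf _ _ _).1 hp
  rw [h] at h1
  have h3 : Ap p (bEq (v H) (subN (I := I) (fun a => bMem (chk (RO (Fsp le)) a) (v H)))) :=
    le_iff_Ap.1 (bEq_subN (v H)) p h1
  rw [bAll_all h, Ap_iInf hr ht] at h2
  intro b
  have h4 : Ap p (⨆ z, bMem z (v H) ⊓ bMem (chk (RO (Fsp le)) b) z) := by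
    have h5 := h2 b
    have e2 : bval (bEx (H + 1) (.mem 1 0)) (scons (chk (RO (Fsp le)) b) v) =
        ⨆ z, bMem z (v H) ⊓ bMem (chk (RO (Fsp le)) b) z := by
      simp only [bval, scons_zero, scons_succ]
    rwa [e2] at h5
  have h6 := unb_aux (B := RO (Fsp le)) (v H) b
  have h7 := le_iff_Ap.1 h6 p ((Ap_inf _ _ _).2 ⟨h3, h4⟩)
  rw [Ap_iSup hr ht] at h7
  intro q hq
  obtain ⟨r, hrq, a, ha⟩ := h7 q hq
  obtain ⟨hba, ha'⟩ := unb_mem_chk b a _ r ha
  exact ⟨r, hrq, ⟨a, hba⟩, (Mem_toS hr ht _ _ _).2 ha'⟩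

/-- conversely, an unbounded name is an unbounded subset of `chkAll` in the extension -/
theorem bval_unb_sub (hr : ∀ p, le p p) (ht : ∀ p q r, le p q → le q r → le p r)
    {v : ℕ → BSet (RO (Fsp le))} {H x : ℕ} (h : v x = chkAll (RO (Fsp le)) I)
    (A : I → Set P) (hH : v H = subN (fun a => toB le A a)) (p : P) (hp : PolF.Unb le A p) :
    Ap p (bval (fUnb H x) v) := by
  have e : bval (fUnb H x) v = bval (bAll H (.mem 0 (x + 1))) v ⊓
      bval (bAll x (bEx (H + 1) (.mem 1 0))) v := rfl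
  rw [e, bAll_subN hH, bAll_all h]
  refine (Ap_inf _ _ _).2 ⟨?_, ?_⟩
  · rw [Ap_iInf hr ht]
    intro a
    have e1 : bval (.mem 0 (x + 1)) (scons (chk (RO (Fsp le)) a) v) = ⊤ := by
      simp only [bval, scons_zero, scons_succ]
      rw [h, chk_mem_chkAll]
    rw [e1, himp_top]
    exact Ap_top p
  · rw [Ap_iInf hr ht]
    intro b
    have hH' : (scons (chk (RO (Fsp le)) b) v) (H + 1) = subN (fun a => toB le A a) := by
      rw [scons_succ, hH]
    rw [bEx_subN hH', Ap_iSup hr ht]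
    intro q hq
    obtain ⟨r, hrq, ⟨a, hba⟩, ha⟩ := hp b q hq
    refine ⟨r, hrq, a, ?_⟩
    refine (Ap_inf _ _ _).2 ⟨(Ap_toB hr ht _ _ _).2 ha, ?_⟩
    have e1 : bval (.mem 1 0) (scons (chk (RO (Fsp le)) a) (scons (chk (RO (Fsp le)) b) v)) = ⊤ := by
      have e2 : bval (.mem 1 0) (scons (chk (RO (Fsp le)) a) (scons (chk (RO (Fsp le)) b) v)) =
          bMem (chk (RO (Fsp le)) b) (chk (RO (Fsp le)) a) := rfl
      rw [e2, chk_mem_of_lt hba]
    rw [e1]
    exact Ap_top r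

end Pool.Agent.PolB
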